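import Pool.Agent.H34.CGS.Stmts

/-!
Row EXW of the board cgs (MP_286349_an): the expectation of words in `x`, `S`.
-/

set_option autoImplicit false

noncomputable section

namespace Pool.CGS

open Pool.CGR

namespace EXWA

theorem split_word {α β : Type} : ∀ W : List (α ⊕ β), (∃ a : List α, W = a.map Sum.inl) ∨
    ∃ (a : List α) (j : β) (b : List (α ⊕ β)), W = a.map Sum.inl ++ Sum.inr j :: b
  | [] => Or.inl ⟨[], rfl⟩
  | Sum.inl i :: W => by
    rcases split_word W with ⟨a, ha⟩ | ⟨a, j, b, ha⟩
    · exact Or.inl ⟨i :: a, by rw [ha]; rfl⟩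
    · exact Or.inr ⟨i :: a, j, b, by rw [ha]; rfl⟩
  | Sum.inr j :: W => Or.inr ⟨[], j, W, rfl⟩

theorem pe_lin {α A : Type} [Ring A] [Algebra ℂ A] (x : α → A) (P : List α →₀ ℂ) :
    pe x P = Finsupp.linearCombination ℂ (fun w => ev x w) P := rfl

theorem dp_lin {α A : Type} [DecidableEq α] [Ring A] [Algebra ℂ A] (τ : A →ₗ[ℂ] ℂ) (x : α → A)
    (i : α) (P : List α →₀ ℂ) :
    dp τ x i P = Finsupp.linearCombination ℂ (fun w => dq (fun w => τ (ev x w)) i w) P := rfl

theorem ev_inl {α β A : Type} [Monoid A] (x : α → A) (S : β → A) (a : List α) :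
    ev (Sum.elim x S) (a.map Sum.inl) = ev x a := by
  simp [ev, List.map_map, Function.comp_def]

theorem dq_inl {α β A : Type} [DecidableEq α] [DecidableEq β] [Ring A] [Algebra ℂ A]
    (τ : A →ₗ[ℂ] ℂ) (x : α → A) (S : β → A) (i : α) (a : List α) :
    dq (fun W => τ (ev (Sum.elim x S) W)) (Sum.inl i) (a.map Sum.inl) =
      dq (fun w => τ (ev x w)) i a := by
  unfold dq
  rw [List.length_map]
  refine Finset.sum_congr rfl fun k _ => ?_
  have h1 : ((a.map (Sum.inl : α → α ⊕ β))[k]? = some (Sum.inl i)) ↔ a[k]? = some i := by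
    rw [List.getElem?_map]
    cases a[k]? with
    | none => simp
    | some y => simp
  by_cases h : a[k]? = some i
  · rw [if_pos (h1.2 h), if_pos h, ← List.map_take, ← List.map_drop]
    simp only [ev_inl]
  · rw [if_neg (fun h' => h (h1.1 h')), if_neg h]

end EXWA

theorem exw_thm (h1 : SDAStmt) (h2 : SDBStmt) : EXWStmt := by
  intro m A _ τ hτ x S hS
  have key : ∀ n : ℕ, ∀ W : List (Fin m ⊕ Fin m), W.length = n → ∃ W' : List (Fin m) →₀ ℂ,
      (∀ c : List (Fin m), τ (ev (Sum.elim x S) W * ev x c) = τ (pe x W' * ev x c)) ∧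
      ∀ i : Fin m, dq (fun W => τ (ev (Sum.elim x S) W)) (Sum.inl i) W = dp τ x i W' := by
    intro n
    induction n using Nat.strong_induction_on with
    | _ n ih =>
      intro W hW
      rcases EXWA.split_word W with ⟨a, rfl⟩ | ⟨a, j, b, rfl⟩
      · refine ⟨Finsupp.single a 1, fun c => ?_, fun i => ?_⟩
        · rw [EXWA.ev_inl, EXWA.pe_lin, Finsupp.linearCombination_single, one_smul]
        · rw [EXWA.dq_inl, EXWA.dp_lin, Finsupp.linearCombination_single, one_smul]
      · have hlen : ∀ k : ℕ, (a.map Sum.inl ++ b.drop (k + 1) : List (Fin m ⊕ Fin m)).length < n := by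
          intro k
          rw [← hW]
          simp only [List.length_append, List.length_map, List.length_drop, List.length_cons]
          omega
        choose F hF using fun k : ℕ => ih _ (hlen k) _ rfl
        refine ⟨∑ k ∈ Finset.range b.length, if b[k]? = some (Sum.inr j) then
          τ (ev (Sum.elim x S) (b.take k)) • F k else 0, fun c => ?_, fun i => ?_⟩
        · rw [h1 m A τ hτ x S hS j a c b, EXWA.pe_lin, map_sum, Finset.sum_mul, map_sum]
          refine Finset.sum_congr rfl fun k _ => ?_
          by_cases h : b[k]? = some (Sum.inr j)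
          · rw [if_pos h, if_pos h, map_smul, smul_mul_assoc, map_smul, ← EXWA.pe_lin,
              ← (hF k).1 c, smul_eq_mul]
          · rw [if_neg h, if_neg h, map_zero, zero_mul, map_zero]
        · rw [h2 m A τ hτ x S hS i j a b, EXWA.dp_lin, map_sum]
          refine Finset.sum_congr rfl fun k _ => ?_
          by_cases h : b[k]? = some (Sum.inr j)
          · rw [if_pos h, if_pos h, map_smul, ← EXWA.dp_lin, ← (hF k).2 i, smul_eq_mul]
          · rw [if_neg h, if_neg h, map_zero]
  exact fun W => key _ W rfl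

end Pool.CGS
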